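import Mathlib

/-!
# Growth functions of finitely presented semigroups (MP_dd6e79_al, Q1, negative answer)

There are only countably many growth functions of finitely presented semigroups, and by
submultiplicativity each of them is either subexponential or at least `c ^ n` for some `c > 1`.
One subexponential function `f₂` dominates all those that are subexponential. So a finitely
presented semigroup whose growth function exceeds `f₂` infinitely often has exponential growth,
and its growth function is not below a given subexponential function `f₁` infinitely often.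
-/

set_option autoImplicit false

open Filter

universe u

namespace Pool.Agent.Results.MP_dd6e79_al.SubexponentialDominated

/-- The elements of the semigroup `S` that can be written as a product `a * l₁ * ⋯ * l_r` of at most
`n` elements of `X`. -/
def ball {S : Type u} [Semigroup S] (X : Set S) (n : ℕ) : Set S :=
  {s | ∃ a ∈ X, ∃ l : List S, (∀ x ∈ l, x ∈ X) ∧ l.length + 1 ≤ n ∧ s = l.foldl (· * ·) a}

/-- The growth function of the semigroup `S` with respect to `X`. -/
noncomputable def growth {S : Type u} [Semigroup S] (X : Set S) (n : ℕ) : ℕ :=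
  (ball X n).ncard

/-- `S` is finitely presented: it is isomorphic to the quotient of a free semigroup of finite rank by
the congruence generated by a finite set of pairs. -/
def FinPres (S : Type u) [Semigroup S] : Prop :=
  ∃ (k : ℕ) (R : Set (FreeSemigroup (Fin k) × FreeSemigroup (Fin k))), R.Finite ∧
    Nonempty (S ≃* (conGen fun a b => (a, b) ∈ R).Quotient)

/-- `f ≼ g`: there is `C ≥ 1` with `f n ≤ C * g (C * n)` for all `n`. -/
def Dom (f g : ℕ → ℕ) : Prop := ∃ C : ℕ, 1 ≤ C ∧ ∀ n, f n ≤ C * g (C * n)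

/-- `f` and `g` are equivalent. -/
def Equ (f g : ℕ → ℕ) : Prop := Dom f g ∧ Dom g f

/-- `f` is subexponential: `f n ≤ exp (ε n)` for all large `n`, for every `ε > 0`. -/
def Subexp (f : ℕ → ℕ) : Prop := ∀ ε : ℝ, 0 < ε → ∀ᶠ n : ℕ in atTop, (f n : ℝ) ≤ Real.exp (ε * n)

section ball

variable {S : Type u} [Semigroup S] {X : Set S}

theorem ball_zero : ball X 0 = ∅ := by
  ext s
  simp [ball]

theorem mem_ball_succ {n : ℕ} {s : S} :
    s ∈ ball X (n + 1) ↔ s ∈ X ∨ ∃ t ∈ ball X n, ∃ x ∈ X, s = t * x := by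
  constructor
  · rintro ⟨a, ha, l, hl, hn, rfl⟩
    rcases List.eq_nil_or_concat l with rfl | ⟨l', x, rfl⟩
    · exact Or.inl ha
    · right
      rw [List.concat_eq_append] at hl hn ⊢
      refine ⟨l'.foldl (· * ·) a, ⟨a, ha, l', ?_, ?_, rfl⟩, x, ?_, ?_⟩
      · intro y hy
        exact hl y (List.mem_append_left _ hy)
      · simp only [List.length_append, List.length_cons, List.length_nil] at hn
        omega
      · exact hl x (by simp)
      · simp
  · rintro (h | ⟨t, ⟨a, ha, l, hl, hn, rfl⟩, x, hx, rfl⟩)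
    · exact ⟨s, h, [], by simp, by simp, rfl⟩
    · refine ⟨a, ha, l ++ [x], ?_, ?_, by simp⟩
      · intro y hy
        rcases List.mem_append.1 hy with hy | hy
        · exact hl y hy
        · rw [List.mem_singleton.1 hy]
          exact hx
      · simp only [List.length_append, List.length_cons, List.length_nil]
        omega

theorem ball_finite (hX : X.Finite) (n : ℕ) : (ball X n).Finite := by
  induction n with
  | zero => rw [ball_zero]; exact Set.finite_empty
  | succ n ih =>
    refine (hX.union ((ih.prod hX).image fun p => p.1 * p.2)).subset ?_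
    intro s hs
    rcases mem_ball_succ.1 hs with h | ⟨t, ht, x, hx, rfl⟩
    · exact Or.inl h
    · exact Or.inr ⟨(t, x), ⟨ht, hx⟩, rfl⟩

theorem mem_ball_add {m n : ℕ} {s : S} (h : s ∈ ball X (m + n)) :
    s ∈ ball X m ∨ s ∈ ball X n ∨ ∃ t ∈ ball X m, ∃ r ∈ ball X n, s = t * r := by
  induction n generalizing s with
  | zero => exact Or.inl h
  | succ n ih =>
    rcases mem_ball_succ.1 (show s ∈ ball X ((m + n) + 1) from h) with h | ⟨t, ht, x, hx, rfl⟩
    · exact Or.inr (Or.inl (mem_ball_succ.2 (Or.inl h)))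
    · rcases ih ht with h1 | h1 | ⟨t', ht', r, hr, rfl⟩
      · exact Or.inr (Or.inr ⟨t, h1, x, mem_ball_succ.2 (Or.inl hx), rfl⟩)
      · exact Or.inr (Or.inl (mem_ball_succ.2 (Or.inr ⟨t, h1, x, hx, rfl⟩)))
      · exact Or.inr (Or.inr ⟨t', ht', r * x, mem_ball_succ.2 (Or.inr ⟨r, hr, x, hx, rfl⟩),
          mul_assoc _ _ _⟩)

theorem growth_add (hX : X.Finite) (m n : ℕ) :
    growth X (m + n) + 1 ≤ (growth X m + 1) * (growth X n + 1) := by
  have hm := ball_finite hX m
  have hn := ball_finite hX n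
  have h1 : ball X (m + n) ⊆ ball X m ∪ (ball X n ∪ (fun p : S × S => p.1 * p.2) ''
      (ball X m ×ˢ ball X n)) := by
    intro s hs
    rcases mem_ball_add hs with h | h | ⟨t, ht, r, hr, rfl⟩
    · exact Or.inl h
    · exact Or.inr (Or.inl h)
    · exact Or.inr (Or.inr ⟨(t, r), ⟨ht, hr⟩, rfl⟩)
  have hfin : (ball X m ∪ (ball X n ∪ (fun p : S × S => p.1 * p.2) ''
      (ball X m ×ˢ ball X n))).Finite := hm.union (hn.union ((hm.prod hn).image _))
  have h2 := Set.ncard_le_ncard h1 hfin
  have h3 := Set.ncard_union_le (ball X m) (ball X n ∪ (fun p : S × S => p.1 * p.2) ''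
      (ball X m ×ˢ ball X n))
  have h4 := Set.ncard_union_le (ball X n) ((fun p : S × S => p.1 * p.2) ''
      (ball X m ×ˢ ball X n))
  have h5 := Set.ncard_image_le (f := fun p : S × S => p.1 * p.2) (hm.prod hn)
  rw [Set.ncard_prod] at h5
  unfold growth
  nlinarith

/-- Growth functions are subexponential or at least exponential. -/
theorem dichotomy (hX : X.Finite) :
    Subexp (growth X) ∨ ∃ c : ℝ, 0 < c ∧ ∀ᶠ n : ℕ in atTop, Real.exp (c * n) ≤ growth X n := by
  set v : ℕ → ℝ := fun n => Real.log ((growth X n : ℝ) + 1) with hv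
  have hpos : ∀ n, (0 : ℝ) < (growth X n : ℝ) + 1 := fun n => by positivity
  have hv0 : ∀ n, 0 ≤ v n := fun n => Real.log_nonneg (by simp)
  have hsub : Subadditive v := by
    intro m n
    rw [hv]
    simp only
    rw [← Real.log_mul (hpos m).ne' (hpos n).ne']
    apply Real.log_le_log (hpos _)
    exact_mod_cast growth_add hX m n
  have hbdd : BddBelow (Set.range fun n : ℕ => v n / n) := by
    refine ⟨0, ?_⟩
    rintro _ ⟨n, rfl⟩
    exact div_nonneg (hv0 n) (Nat.cast_nonneg n)
  have hlim := hsub.tendsto_lim hbdd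
  have hL0 : 0 ≤ hsub.lim := ge_of_tendsto' hlim fun n => div_nonneg (hv0 n) (Nat.cast_nonneg n)
  rcases hL0.eq_or_lt with h0 | h0
  · left
    intro ε hε
    have h1 : ∀ᶠ n : ℕ in atTop, v n / n < ε := hlim.eventually_lt_const (by rw [← h0]; exact hε)
    filter_upwards [h1, eventually_gt_atTop 0] with n hn hn0
    have hn0' : (0 : ℝ) < n := by exact_mod_cast hn0
    rw [div_lt_iff₀ hn0'] at hn
    have h2 : (growth X n : ℝ) + 1 ≤ Real.exp (ε * n) := by
      rw [← Real.exp_log (hpos n)]
      exact Real.exp_le_exp.2 hn.le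
    linarith
  · right
    refine ⟨hsub.lim / 2, half_pos h0, ?_⟩
    have h1 : ∀ᶠ n : ℕ in atTop, (1 : ℝ) / (hsub.lim / 2) ≤ n :=
      tendsto_natCast_atTop_atTop.eventually_ge_atTop _
    filter_upwards [h1, eventually_gt_atTop 0] with n hn hn0
    have hn0' : (0 : ℝ) < n := by exact_mod_cast hn0
    have h2 := hsub.lim_le_div hbdd (n := n) hn0.ne'
    rw [le_div_iff₀ hn0'] at h2
    have h3 : Real.exp (hsub.lim * n) ≤ (growth X n : ℝ) + 1 := by
      rw [← Real.exp_log (hpos n)]
      exact Real.exp_le_exp.2 h2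
    rw [div_le_iff₀ (half_pos h0)] at hn
    -- `exp (L n) = exp (L n / 2) ^ 2 ≥ exp (L n / 2) + 1`
    have h4 : Real.exp (hsub.lim * n) = Real.exp (hsub.lim / 2 * n) * Real.exp (hsub.lim / 2 * n) := by
      rw [← Real.exp_add]
      congr 1
      ring
    have h5 : 2 ≤ Real.exp (hsub.lim / 2 * n) := by
      have := Real.add_one_le_exp (hsub.lim / 2 * n)
      nlinarith
    nlinarith

theorem ball_image {T : Type*} [Semigroup T] (f : S →ₙ* T) (n : ℕ) :
    ball (f '' X) n = f '' ball X n := by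
  induction n with
  | zero => simp [ball_zero]
  | succ n ih =>
    ext t
    rw [mem_ball_succ, ih]
    constructor
    · rintro (⟨x, hx, rfl⟩ | ⟨_, ⟨s, hs, rfl⟩, _, ⟨x, hx, rfl⟩, rfl⟩)
      · exact ⟨x, mem_ball_succ.2 (Or.inl hx), rfl⟩
      · exact ⟨s * x, mem_ball_succ.2 (Or.inr ⟨s, hs, x, hx, rfl⟩), map_mul f s x⟩
    · rintro ⟨s, hs, rfl⟩
      rcases mem_ball_succ.1 hs with h | ⟨s', hs', x, hx, rfl⟩
      · exact Or.inl ⟨s, h, rfl⟩
      · exact Or.inr ⟨f s', ⟨s', hs', rfl⟩, f x, ⟨x, hx, rfl⟩, map_mul f s' x⟩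

end ball

/-- Countably many subexponential functions are dominated by one subexponential function. -/
theorem exists_dominating (F : ℕ → ℕ → ℕ) (hF : ∀ i, Subexp (F i)) :
    ∃ f : ℕ → ℕ, Subexp f ∧ ∀ i, ∀ᶠ n in atTop, F i n ≤ f n := by
  -- thresholds
  have h1 : ∀ j : ℕ, ∃ N : ℕ, ∀ n ≥ N, ∀ i ≤ j, (F i n : ℝ) ≤ Real.exp (1 / ((j : ℝ) + 1) * n) := by
    intro j
    have : ∀ᶠ n : ℕ in atTop, ∀ i ≤ j, (F i n : ℝ) ≤ Real.exp (1 / ((j : ℝ) + 1) * n) := by
      have := (Finset.range (j + 1)).eventually_all (l := atTop)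
        (p := fun i (n : ℕ) => (F i n : ℝ) ≤ Real.exp (1 / ((j : ℝ) + 1) * n))
      have h2 := this.2 fun i _ => hF i _ (by positivity)
      filter_upwards [h2] with n hn i hi
      exact hn i (Finset.mem_range.2 (Nat.lt_succ_of_le hi))
    exact eventually_atTop.1 this
  choose N hN using h1
  -- `M j` is increasing
  set M : ℕ → ℕ := fun j => ∑ i ∈ Finset.range (j + 1), N i with hM
  have hMN : ∀ i j, i ≤ j → N i ≤ M j := by
    intro i j hij
    exact Finset.single_le_sum (f := N) (fun _ _ => Nat.zero_le _)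
      (Finset.mem_range.2 (Nat.lt_succ_of_le hij))
  set f : ℕ → ℕ := fun n => (Finset.range (n + 1)).sup fun i => if M i ≤ n then F i n else 0 with hf
  refine ⟨f, ?_, ?_⟩
  · intro ε hε
    obtain ⟨j, hj⟩ := exists_nat_gt (1 / ε)
    have hj' : 1 / ((j : ℝ) + 1) ≤ ε := by
      rw [div_le_iff₀ (by positivity)]
      rw [div_lt_iff₀ hε] at hj
      nlinarith
    filter_upwards [eventually_ge_atTop (M j)] with n hn
    have key : ∀ i, M i ≤ n → (F i n : ℝ) ≤ Real.exp (ε * n) := by
      intro i hi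
      rcases le_total i j with hij | hij
      · refine (hN j n (le_trans (hMN j j le_rfl) hn) i hij).trans (Real.exp_le_exp.2 ?_)
        exact mul_le_mul_of_nonneg_right hj' (Nat.cast_nonneg n)
      · refine (hN i n (le_trans (hMN i i le_rfl) hi) i le_rfl).trans (Real.exp_le_exp.2 ?_)
        refine mul_le_mul_of_nonneg_right (le_trans ?_ hj') (Nat.cast_nonneg n)
        have : (j : ℝ) ≤ i := by exact_mod_cast hij
        exact one_div_le_one_div_of_le (by positivity) (by linarith)
    have h2 : ∃ i ∈ Finset.range (n + 1), f n = if M i ≤ n then F i n else 0 :=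
      Finset.exists_mem_eq_sup _ ⟨0, by simp⟩ _
    obtain ⟨i, -, hi⟩ := h2
    rw [hi]
    split_ifs with h
    · exact key i h
    · simp only [Nat.cast_zero]
      positivity
  · intro i
    filter_upwards [eventually_ge_atTop (M i), eventually_ge_atTop i] with n hn hi
    have := Finset.le_sup (f := fun i => if M i ≤ n then F i n else 0)
      (Finset.mem_range.2 (Nat.lt_succ_of_le hi))
    simpa [hn] using this

/-- The running sum of a subexponential function is subexponential. -/
theorem Subexp.sum {f : ℕ → ℕ} (hf : Subexp f) :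
    Subexp fun n => ∑ m ∈ Finset.range (n + 1), f m := by
  intro ε hε
  obtain ⟨N, hN⟩ := eventually_atTop.1 (hf (ε / 4) (by positivity))
  set B : ℝ := ∑ m ∈ Finset.range N, (f m : ℝ) with hB
  have hB0 : 0 ≤ B := Finset.sum_nonneg fun _ _ => Nat.cast_nonneg _
  have h1 : ∀ᶠ n : ℕ in atTop, (n : ℝ) + 1 ≤ Real.exp (ε / 4 * n) := by
    have : ∀ᶠ n : ℕ in atTop, (32 / ε ^ 2 + 32 : ℝ) ≤ n :=
      tendsto_natCast_atTop_atTop.eventually_ge_atTop _
    filter_upwards [this] with n hn
    have hn0 : (0 : ℝ) ≤ n := Nat.cast_nonneg n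
    have h2 := Real.quadratic_le_exp_of_nonneg (x := ε / 4 * n) (by positivity)
    have h3 : (n : ℝ) ≤ (ε / 4 * n) ^ 2 / 2 := by
      have : (32 / ε ^ 2 : ℝ) ≤ n := by linarith
      rw [div_le_iff₀ (by positivity)] at this
      nlinarith
    have h4 : 0 ≤ ε / 4 * n := by positivity
    linarith
  have h2 : ∀ᶠ n : ℕ in atTop, B ≤ Real.exp (ε / 4 * n) := by
    have : ∀ᶠ n : ℕ in atTop, (B / (ε / 4) : ℝ) ≤ n :=
      tendsto_natCast_atTop_atTop.eventually_ge_atTop _
    filter_upwards [this] with n hn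
    rw [div_le_iff₀ (by positivity)] at hn
    have := Real.add_one_le_exp (ε / 4 * n)
    linarith
  have h3 : ∀ᶠ n : ℕ in atTop, (2 : ℝ) ≤ Real.exp (ε / 4 * n) := by
    have : ∀ᶠ n : ℕ in atTop, (1 / (ε / 4) : ℝ) ≤ n :=
      tendsto_natCast_atTop_atTop.eventually_ge_atTop _
    filter_upwards [this] with n hn
    rw [div_le_iff₀ (by positivity)] at hn
    have := Real.add_one_le_exp (ε / 4 * n)
    linarith
  filter_upwards [h1, h2, h3, eventually_ge_atTop N] with n h1 h2 h3 hn
  set E := Real.exp (ε / 4 * n) with hE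
  have hE0 : 0 < E := Real.exp_pos _
  have h4 : (∑ m ∈ Finset.range (n + 1), (f m : ℝ)) ≤ B + (n + 1) * E := by
    have h5 : Finset.range (n + 1) = Finset.range N ∪ Finset.Ico N (n + 1) := by
      ext x
      simp only [Finset.mem_range, Finset.mem_union, Finset.mem_Ico]
      omega
    rw [h5, Finset.sum_union]
    · have h6 : (∑ m ∈ Finset.Ico N (n + 1), (f m : ℝ)) ≤ ∑ m ∈ Finset.Ico N (n + 1), E := by
        refine Finset.sum_le_sum fun m hm => ?_
        rw [Finset.mem_Ico] at hm
        refine (hN m hm.1).trans (Real.exp_le_exp.2 ?_)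
        have : (m : ℝ) ≤ n := by exact_mod_cast (by omega : m ≤ n)
        exact mul_le_mul_of_nonneg_left this (by positivity)
      have h7 : (∑ m ∈ Finset.Ico N (n + 1), E) ≤ (n + 1) * E := by
        rw [Finset.sum_const, Nat.card_Ico, nsmul_eq_mul]
        refine mul_le_mul_of_nonneg_right ?_ hE0.le
        have : ((n + 1 - N : ℕ) : ℝ) ≤ ((n + 1 : ℕ) : ℝ) := by exact_mod_cast Nat.sub_le _ _
        push_cast at this
        linarith
      linarith
    · rw [Finset.disjoint_left]
      intro x hx hx'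
      rw [Finset.mem_range] at hx
      rw [Finset.mem_Ico] at hx'
      omega
  have h5 : Real.exp (ε * n) = E * E * (E * E) := by
    rw [hE, ← Real.exp_add, ← Real.exp_add]
    congr 1
    ring
  push_cast
  rw [h5]
  have h6 : (n + 1) * E ≤ E * E := mul_le_mul_of_nonneg_right h1 hE0.le
  have h7 : 4 ≤ E * E := by nlinarith
  have h8 : E ≤ E * E := by nlinarith
  nlinarith [mul_le_mul_of_nonneg_right h7 (mul_self_nonneg E)]

theorem subexp_sq : Subexp fun n => n ^ 2 := by
  intro ε hε
  have : ∀ᶠ n : ℕ in atTop, ((6 / ε ^ 3 : ℝ)) ≤ n :=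
    tendsto_natCast_atTop_atTop.eventually_ge_atTop _
  filter_upwards [this] with n hn
  have hn0 : (0 : ℝ) ≤ n := Nat.cast_nonneg n
  have h := Real.pow_div_factorial_le_exp (ε * n) (by positivity) 3
  rw [div_le_iff₀ (by positivity)] at hn
  have h6 : (Nat.factorial 3 : ℝ) = 6 := by norm_num [Nat.factorial]
  rw [h6] at h
  have h2 : ((n : ℝ) ^ 2) ≤ (ε * n) ^ 3 / 6 := by
    have h3 : (ε * n) ^ 3 / 6 = (n : ℝ) ^ 2 * (n * ε ^ 3 / 6) := by ring
    rw [h3]
    have h4 : 1 ≤ n * ε ^ 3 / 6 := by linarith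
    nlinarith [sq_nonneg (n : ℝ)]
  push_cast
  linarith

theorem subexp_cube : Subexp fun n => n ^ 3 := by
  intro ε hε
  have : ∀ᶠ n : ℕ in atTop, ((24 / ε ^ 4 : ℝ)) ≤ n :=
    tendsto_natCast_atTop_atTop.eventually_ge_atTop _
  filter_upwards [this] with n hn
  have hn0 : (0 : ℝ) ≤ n := Nat.cast_nonneg n
  have h := Real.pow_div_factorial_le_exp (ε * n) (by positivity) 4
  rw [div_le_iff₀ (by positivity)] at hn
  have h6 : (Nat.factorial 4 : ℝ) = 24 := by norm_num [Nat.factorial]
  rw [h6] at h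
  have h2 : ((n : ℝ) ^ 3) ≤ (ε * n) ^ 4 / 24 := by
    have h3 : (ε * n) ^ 4 / 24 = (n : ℝ) ^ 3 * (n * ε ^ 4 / 24) := by ring
    rw [h3]
    have h4 : 1 ≤ n * ε ^ 4 / 24 := by linarith
    exact le_mul_of_one_le_right (by positivity) h4
  push_cast
  linarith

theorem Subexp.add {f g : ℕ → ℕ} (hf : Subexp f) (hg : Subexp g) : Subexp fun n => f n + g n := by
  intro ε hε
  have h3 : ∀ᶠ n : ℕ in atTop, (2 : ℝ) ≤ Real.exp (ε / 2 * n) := by
    have : ∀ᶠ n : ℕ in atTop, (1 / (ε / 2) : ℝ) ≤ n :=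
      tendsto_natCast_atTop_atTop.eventually_ge_atTop _
    filter_upwards [this] with n hn
    rw [div_le_iff₀ (by positivity)] at hn
    have := Real.add_one_le_exp (ε / 2 * n)
    linarith
  filter_upwards [hf (ε / 2) (by positivity), hg (ε / 2) (by positivity), h3] with n h1 h2 h3
  have h5 : Real.exp (ε * n) = Real.exp (ε / 2 * n) * Real.exp (ε / 2 * n) := by
    rw [← Real.exp_add]
    congr 1
    ring
  rw [h5]
  push_cast
  nlinarith [Real.exp_pos (ε / 2 * n)]

theorem Subexp.mono {f g : ℕ → ℕ} (hg : Subexp g) (h : ∀ n, f n ≤ g n) : Subexp f := by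
  intro ε hε
  filter_upwards [hg ε hε] with n hn
  exact le_trans (by exact_mod_cast h n) hn

/-- A subexponential function is not equivalent to `2 ^ n`. -/
theorem Subexp.not_dom {f : ℕ → ℕ} (hf : Subexp f) : ¬ Dom (fun n => 2 ^ n) f := by
  rintro ⟨C, hC, h⟩
  have hC0 : (0 : ℝ) < C := by exact_mod_cast hC
  have h1 := hf (1 / (4 * C)) (by positivity)
  obtain ⟨N, hN⟩ := eventually_atTop.1 h1
  -- take `n ≥ N` large
  obtain ⟨n, hn1, hn2⟩ : ∃ n : ℕ, N ≤ n ∧ (4 * (C : ℝ)) ≤ n := by
    obtain ⟨n, hn⟩ := exists_nat_ge (4 * (C : ℝ))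
    exact ⟨max N n, le_max_left _ _, hn.trans (by exact_mod_cast le_max_right _ _)⟩
  have h2 := hN (C * n) (le_trans hn1 (Nat.le_mul_of_pos_left n hC))
  have h3 : ((2 : ℝ) ^ n) ≤ C * f (C * n) := by exact_mod_cast h n
  have h4 : (1 / (4 * (C : ℝ)) * ((C * n : ℕ) : ℝ)) = n / 4 := by
    push_cast
    field_simp
  rw [h4] at h2
  have h5 : ((2 : ℝ) ^ n) ≤ C * Real.exp (n / 4) :=
    h3.trans (mul_le_mul_of_nonneg_left h2 hC0.le)
  have h6 : (C : ℝ) ≤ Real.exp (n / 4) := by
    have := Real.add_one_le_exp ((n : ℝ) / 4)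
    linarith
  have h7 : ((2 : ℝ) ^ n) ≤ Real.exp (n / 2) := by
    refine h5.trans ?_
    have : Real.exp ((n : ℝ) / 2) = Real.exp (n / 4) * Real.exp (n / 4) := by
      rw [← Real.exp_add]
      congr 1
      ring
    rw [this]
    exact mul_le_mul_of_nonneg_right h6 (Real.exp_pos _).le
  have h8 : Real.exp ((n : ℝ) * Real.log 2) = 2 ^ n := by
    rw [mul_comm, Real.exp_mul, Real.exp_log (by norm_num)]
    simp
  rw [← h8, Real.exp_le_exp] at h7
  have h9 := Real.log_two_gt_d9
  have hn0 : (0 : ℝ) < n := lt_of_lt_of_le (by positivity) hn2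
  nlinarith

/-- A subexponential function is `≼ 2 ^ n`. -/
theorem Subexp.dom {f : ℕ → ℕ} (hf : Subexp f) : Dom f fun n => 2 ^ n := by
  obtain ⟨N, hN⟩ := eventually_atTop.1 (hf (1 / 2) (by norm_num))
  refine ⟨1 + ∑ m ∈ Finset.range N, f m, by omega, fun n => ?_⟩
  set C := 1 + ∑ m ∈ Finset.range N, f m with hC
  rcases lt_or_ge n N with hn | hn
  · have h1 : f n ≤ C := by
      have := Finset.single_le_sum (f := f) (fun _ _ => Nat.zero_le _) (Finset.mem_range.2 hn)
      omega
    exact h1.trans (Nat.le_mul_of_pos_right C (by positivity))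
  · have h1 := hN n hn
    have h2 : Real.exp (1 / 2 * n) ≤ 2 ^ n := by
      have h8 : Real.exp ((n : ℝ) * Real.log 2) = 2 ^ n := by
        rw [mul_comm, Real.exp_mul, Real.exp_log (by norm_num)]
        simp
      rw [← h8]
      apply Real.exp_le_exp.2
      have h9 := Real.log_two_gt_d9
      have hn0 : (0 : ℝ) ≤ n := Nat.cast_nonneg n
      nlinarith
    have h3 : f n ≤ 2 ^ n := by exact_mod_cast h1.trans h2
    refine h3.trans ?_
    calc 2 ^ n ≤ 2 ^ (C * n) := Nat.pow_le_pow_right (by norm_num)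
          (Nat.le_mul_of_pos_left n (by omega))
      _ ≤ C * 2 ^ (C * n) := Nat.le_mul_of_pos_left _ (by omega)

/-- The presentations of rank `k` with a finite set of words. -/
abbrev Idx : Type := Σ k : ℕ, Finset (FreeSemigroup (Fin k) × FreeSemigroup (Fin k)) ×
  Finset (FreeSemigroup (Fin k))

instance (k : ℕ) : Countable (FreeSemigroup (Fin k)) := by
  have : Function.Injective fun w : FreeSemigroup (Fin k) => (w.head, w.tail) := by
    rintro ⟨a, l⟩ ⟨b, m⟩ h
    simp only [Prod.mk.injEq] at h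
    obtain ⟨rfl, rfl⟩ := h
    rfl
  exact this.countable

instance : Nonempty Idx := ⟨⟨0, ∅, ∅⟩⟩

/-- the growth function of `⟨Fin k | P⟩` with respect to the classes of the words in `W` -/
noncomputable def gr {k : ℕ} (P : FreeSemigroup (Fin k) → FreeSemigroup (Fin k) → Prop)
    (W : Set (FreeSemigroup (Fin k))) (n : ℕ) : ℕ :=
  growth ((Con.toQuotient (c := conGen P)) '' W) n

/-- the growth function given by an index -/
noncomputable def Fi (i : Idx) (n : ℕ) : ℕ :=
  gr (fun a b => (a, b) ∈ i.2.1) {w | w ∈ i.2.2} n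

theorem exists_idx {S : Type u} [Semigroup S] (hS : FinPres S) {X : Set S} (hX : X.Finite) :
    ∃ i : Idx, ∀ n, growth X n = Fi i n := by
  classical
  obtain ⟨k, R, hR, ⟨e⟩⟩ := hS
  have hfin : ((fun q : (conGen fun a b => (a, b) ∈ R).Quotient => Quotient.out q) ''
      (e '' X)).Finite := (hX.image _).image _
  refine ⟨⟨k, hR.toFinset, hfin.toFinset⟩, fun n => ?_⟩
  have key : ∀ (P : FreeSemigroup (Fin k) → FreeSemigroup (Fin k) → Prop)
      (W : Set (FreeSemigroup (Fin k))) (_ : P = fun a b => (a, b) ∈ R)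
      (_ : W = (fun q : (conGen fun a b => (a, b) ∈ R).Quotient => Quotient.out q) '' (e '' X)),
      growth X n = gr P W n := by
    intro P W hP hW
    subst hP hW
    unfold gr
    have h3 : (Con.toQuotient (c := conGen fun a b => (a, b) ∈ R)) ''
        ((fun q : (conGen fun a b => (a, b) ∈ R).Quotient => Quotient.out q) '' (e '' X)) =
        e '' X := by
      rw [Set.image_image]
      have : ∀ q : (conGen fun a b => (a, b) ∈ R).Quotient,
          Con.toQuotient (c := conGen fun a b => (a, b) ∈ R) (Quotient.out q) = q :=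
        fun q => Quotient.out_eq q
      simp only [this, Set.image_id']
    rw [h3]
    unfold growth
    have h4 := ball_image (X := X) (e : S →ₙ* (conGen fun a b => (a, b) ∈ R).Quotient) n
    have h5 : ball (e '' X) n = e '' ball X n := h4
    rw [h5, Set.ncard_image_of_injective _ e.injective]
  refine key _ _ ?_ ?_
  · funext a b
    simp
  · ext w
    simp

/-- **Negative answer to Q1 of MP_dd6e79_al.** There is a (strictly) increasing function `f₂` with
`n² ≼ f₂ ≼ 2ⁿ`, `f₂ ≁ 2ⁿ` such that for every subexponential function `f₁` (in particular for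
some increasing `f₁` with `n² ≼ f₁ ≼ 2ⁿ` and `f₁ ≁ n²`), every finitely presented semigroup `S`
and every finite set `X ⊆ S` (in particular every finite generating set) the growth function of `S`
with respect to `X` is at least `f₁` for all large `n`, or at most `f₂` for all large `n`. -/
theorem result :
    ∃ f₂ : ℕ → ℕ, StrictMono f₂ ∧ Dom (fun n => n ^ 2) f₂ ∧ Dom f₂ (fun n => 2 ^ n) ∧
      ¬ Equ f₂ (fun n => 2 ^ n) ∧
      (∃ f₁ : ℕ → ℕ, StrictMono f₁ ∧ Dom (fun n => n ^ 2) f₁ ∧ Dom f₁ (fun n => 2 ^ n) ∧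
        ¬ Equ f₁ (fun n => n ^ 2) ∧ Subexp f₁) ∧
      ∀ f₁ : ℕ → ℕ, Subexp f₁ → ∀ (S : Type u) [Semigroup S], FinPres S →
        ∀ X : Set S, X.Finite →
          (∀ᶠ n in atTop, f₁ n ≤ growth X n) ∨ (∀ᶠ n in atTop, growth X n ≤ f₂ n) := by
  classical
  obtain ⟨φ, hφ⟩ := exists_surjective_nat Idx
  set F : ℕ → ℕ → ℕ := fun i => if Subexp (Fi (φ i)) then Fi (φ i) else fun _ => 0 with hF
  have hF' : ∀ i, Subexp (F i) := by
    intro i
    rw [hF]
    simp only
    split_ifs with h
    · exact h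
    · intro ε hε
      exact Eventually.of_forall fun n => by simp only [Nat.cast_zero]; positivity
  obtain ⟨g, hg, hFg⟩ := exists_dominating F hF'
  set f₂ : ℕ → ℕ := fun n => (n ^ 2 + n ^ 2) + ∑ m ∈ Finset.range (n + 1), g m with hf₂
  have hsub : Subexp f₂ := (subexp_sq.add subexp_sq).add hg.sum
  have hmono : StrictMono f₂ := by
    refine strictMono_nat_of_lt_succ fun n => ?_
    rw [hf₂]
    simp only
    have := Finset.sum_range_succ g (n + 1)
    have h2 : (n + 1) ^ 2 = n ^ 2 + 2 * n + 1 := by ring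
    omega
  have hlow : Dom (fun n => n ^ 2) f₂ := by
    refine ⟨1, le_rfl, fun n => ?_⟩
    rw [hf₂]
    simp only [one_mul]
    nlinarith [Nat.zero_le (∑ m ∈ Finset.range (n + 1), g m)]
  have main : ∀ f₁ : ℕ → ℕ, Subexp f₁ → ∀ (S : Type u) [Semigroup S], FinPres S →
      ∀ X : Set S, X.Finite →
        (∀ᶠ n in atTop, f₁ n ≤ growth X n) ∨ (∀ᶠ n in atTop, growth X n ≤ f₂ n) := by
    intro f₁ hf₁ S _ hS X hX
    rcases dichotomy hX with h | ⟨c, hc, h⟩
    · right
      obtain ⟨i, hi⟩ := exists_idx hS hX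
      obtain ⟨j, rfl⟩ := hφ i
      have hs : Subexp (Fi (φ j)) := by
        have : Fi (φ j) = growth X := funext fun n => (hi n).symm
        rw [this]
        exact h
      filter_upwards [hFg j] with n hn
      rw [hF] at hn
      simp only [hs, if_true] at hn
      rw [hi n, hf₂]
      simp only
      have h3 : g n ≤ ∑ m ∈ Finset.range (n + 1), g m :=
        Finset.single_le_sum (f := g) (fun _ _ => Nat.zero_le _)
          (Finset.mem_range.2 (Nat.lt_succ_self n))
      omega
    · left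
      filter_upwards [h, hf₁ c hc] with n h1 h2
      exact_mod_cast h2.trans h1
  refine ⟨f₂, hmono, hlow, hsub.dom, fun h => hsub.not_dom h.2,
    ⟨fun n => n ^ 3, Nat.pow_left_strictMono (by norm_num), ?_, subexp_cube.dom, ?_,
      subexp_cube⟩, main⟩
  · refine ⟨1, le_rfl, fun n => ?_⟩
    simp only [one_mul]
    rcases Nat.eq_zero_or_pos n with rfl | hn
    · simp
    · exact Nat.pow_le_pow_right hn (by norm_num)
  · rintro ⟨⟨C, hC, h⟩, -⟩
    have h1 := h (C ^ 3 + 1)
    simp only at h1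
    have h2 : C * (C * (C ^ 3 + 1)) ^ 2 = C ^ 3 * (C ^ 3 + 1) ^ 2 := by ring
    rw [h2, pow_succ (C ^ 3 + 1) 2, mul_comm] at h1
    have h3 := Nat.le_of_mul_le_mul_right h1 (by positivity)
    omega

end Pool.Agent.Results.MP_dd6e79_al.SubexponentialDominated
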